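import Pool.Agent.N422.CD.Stm

/-! Project CD (helper422): the theorem on all sieves which detect `m` almost primes (CD/FIN). Author: helper451. The
lemmas on blocks are copied from `Pool.Agent.N422.NW.FIN` (helper422), some steps from `Pool.Agent.N422.SL.AB`
(helper278). -/

set_option autoImplicit false

open Finset

namespace Pool.Agent.N422.CD

open Pool.Agent.N422.NW Pool.Agent.N422.SL Pool.Agent.N422.WS

/-- the block of a prime -/
noncomputable def FIN_blk (n Q p : ℕ) : ℕ := ⌈(n : ℝ) * Real.log p / Real.log Q⌉₊ - 1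

theorem FIN_blk_spec {m n Q p : ℕ} (hm : 0 < m) (hQ : 0 < Real.log Q)
    (hp1 : (m : ℝ) * Real.log Q < n * Real.log p)
    (hpQ : Real.log p ≤ Real.log Q) : m ≤ FIN_blk n Q p ∧ FIN_blk n Q p < n ∧
      (FIN_blk n Q p : ℝ) * Real.log Q < n * Real.log p ∧
      n * Real.log p ≤ ((FIN_blk n Q p : ℝ) + 1) * Real.log Q := by
  obtain ⟨y, hy⟩ : ∃ y, y = (n : ℝ) * Real.log p / Real.log Q := ⟨_, rfl⟩
  have h1 : (m : ℝ) < y := by rw [hy, lt_div_iff₀ hQ]; exact hp1
  have h2 : y ≤ n := by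
    rw [hy, div_le_iff₀ hQ]
    exact mul_le_mul_of_nonneg_left hpQ (Nat.cast_nonneg n)
  have h3 : m < ⌈y⌉₊ := Nat.lt_ceil.2 h1
  have h4 : ⌈y⌉₊ ≤ n := Nat.ceil_le.2 h2
  have h5 : FIN_blk n Q p = ⌈y⌉₊ - 1 := by rw [hy]; rfl
  have h6 : (FIN_blk n Q p : ℝ) + 1 = ⌈y⌉₊ := by
    have : FIN_blk n Q p + 1 = ⌈y⌉₊ := by omega
    exact_mod_cast this
  have h7 : y ≤ ⌈y⌉₊ := Nat.le_ceil y
  have h8 : (⌈y⌉₊ : ℝ) < y + 1 := Nat.ceil_lt_add_one (by linarith [Nat.cast_nonneg (α := ℝ) m])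
  have e1 : (n : ℝ) * Real.log p = y * Real.log Q := by
    rw [hy, div_mul_cancel₀ _ hQ.ne']
  refine ⟨by omega, by omega, ?_, ?_⟩
  · rw [e1]
    apply mul_lt_mul_of_pos_right _ hQ
    linarith
  · rw [e1, h6]
    exact mul_le_mul_of_nonneg_right h7 hQ.le

theorem FIN_blk_mono {n Q p p' : ℕ} (hQ : 0 < Real.log Q) (hp : 0 < p) (hpp : p ≤ p') :
    FIN_blk n Q p ≤ FIN_blk n Q p' := by
  unfold FIN_blk
  apply Nat.sub_le_sub_right
  apply Nat.ceil_mono
  apply div_le_div_of_nonneg_right _ hQ.le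
  apply mul_le_mul_of_nonneg_left _ (Nat.cast_nonneg n)
  exact Real.log_le_log (by exact_mod_cast hp) (by exact_mod_cast hpp)

theorem FIN_blk_unique {n Q p j : ℕ} (hQ : 0 < Real.log Q) (h1 : (j : ℝ) * Real.log Q < n * Real.log p)
    (h2 : n * Real.log p ≤ ((j : ℝ) + 1) * Real.log Q) : FIN_blk n Q p = j := by
  obtain ⟨y, hy⟩ : ∃ y, y = (n : ℝ) * Real.log p / Real.log Q := ⟨_, rfl⟩
  have h3 : (j : ℝ) < y := by rw [hy, lt_div_iff₀ hQ]; exact h1
  have h4 : y ≤ ((j + 1 : ℕ) : ℝ) := by rw [hy, div_le_iff₀ hQ]; push_cast; exact h2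
  have h5 : j < ⌈y⌉₊ := Nat.lt_ceil.2 h3
  have h6 : ⌈y⌉₊ ≤ j + 1 := Nat.ceil_le.2 h4
  have h7 : FIN_blk n Q p = ⌈y⌉₊ - 1 := by rw [hy]; rfl
  omega

/-- the primes dividing a number -/
theorem FIN_lg {s : Finset ℕ} {D : ℕ} (hD : 0 < D) (hs : ∀ p ∈ s, p.Prime ∧ p ∣ D) :
    ∑ p ∈ s, Real.log p ≤ Real.log D := by
  have h1 : ∏ p ∈ s, p ∣ D := Finset.prod_primes_dvd D (fun p hp => (hs p hp).1.prime) (fun p hp => (hs p hp).2)
  have h2 : ∏ p ∈ s, p ≤ D := Nat.le_of_dvd hD h1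
  have h3 : 0 < ∏ p ∈ s, p := prod_pos fun p hp => (hs p hp).1.pos
  rw [← Real.log_prod (fun p hp => by
    have := (hs p hp).1.pos
    exact_mod_cast this.ne')]
  have e : ∏ p ∈ s, (p : ℝ) = ((∏ p ∈ s, p : ℕ) : ℝ) := by push_cast; rfl
  rw [e]
  apply Real.log_le_log
  · exact_mod_cast h3
  · exact_mod_cast h2

theorem FIN_sum_mod (d e : ℕ) (f : ℕ → ℝ) : ∑ x ∈ range (d * e), f (x % d) = e * ∑ a ∈ range d, f a := by
  induction e with
  | zero => simp
  | succ e ih =>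
    rw [Nat.mul_succ, sum_range_add, ih]
    have : ∑ x ∈ range d, f ((d * e + x) % d) = ∑ a ∈ range d, f a := by
      apply sum_congr rfl
      intro a ha
      rw [Nat.mul_add_mod, Nat.mod_eq_of_lt (mem_range.1 ha)]
    rw [this]
    push_cast
    ring

theorem FIN_mean (Q : ℕ) (c : ℕ → ℕ → ℝ) :
    (∑ x ∈ range Q.factorial, ∑ d ∈ Icc 1 Q, c d (x % d)) / Q.factorial = mn Q c := by
  have hM : (0 : ℝ) < Q.factorial := by exact_mod_cast Nat.factorial_pos Q
  unfold mn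
  rw [sum_comm, div_eq_iff hM.ne', sum_mul]
  apply sum_congr rfl
  intro d hd
  rw [mem_Icc] at hd
  obtain ⟨e, he⟩ : d ∣ Q.factorial := Nat.dvd_factorial (by omega) hd.2
  have hd0 : (0 : ℝ) < d := by exact_mod_cast hd.1
  rw [he, FIN_sum_mod]
  push_cast
  field_simp

theorem FIN_muP_nonneg {N k : ℕ} {q : Fin N → ℝ} (hq : ∀ i, (k : ℝ) < q i) (γ : St N k) : 0 ≤ muP q γ := by
  unfold muP
  refine prod_nonneg fun i _ => ?_
  have hk : (0 : ℝ) ≤ k := Nat.cast_nonneg k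
  have h0 : 0 < q i := lt_of_le_of_lt hk (hq i)
  cases γ i with
  | none =>
    show (0 : ℝ) ≤ 1 - k / q i
    rw [sub_nonneg, div_le_one h0]
    exact (hq i).le
  | some a =>
    show (0 : ℝ) ≤ 1 / q i
    positivity

/-- the parameter `n1` and the constant -/
theorem FIN_par {k : ℕ} {s : ℝ} (hk : 1 ≤ k) (hs : 1 ≤ s) (hsk : s ≤ k) : ∃ n1 : ℕ, 1 ≤ n1 ∧ n1 ≤ k ∧
    (n1 : ℝ) ≤ k / s ∧ 1 ≤ Real.log (3 * k / s) ∧
    ((k : ℝ) / n1) * (1 + Real.log n1) ≤ 2 * s * Real.log (3 * k / s) := by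
  have hkr : (1 : ℝ) ≤ k := by exact_mod_cast hk
  have hk0 : (0 : ℝ) < k := by linarith
  have hs0 : 0 < s := by linarith
  have hks : 1 ≤ (k : ℝ) / s := by rw [le_div_iff₀ hs0]; linarith
  obtain ⟨n1, hn1⟩ : ∃ n1, n1 = ⌊(k : ℝ) / s⌋₊ := ⟨_, rfl⟩
  have ha : 1 ≤ n1 := by rw [hn1]; exact Nat.le_floor (by exact_mod_cast hks)
  have hb : (n1 : ℝ) ≤ k / s := by rw [hn1]; exact Nat.floor_le (by positivity)
  have har : (1 : ℝ) ≤ n1 := by exact_mod_cast ha
  have hn0 : (0 : ℝ) < n1 := by linarith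
  have hc : n1 ≤ k := by
    have : (n1 : ℝ) ≤ k := hb.trans (div_le_self hk0.le hs)
    exact_mod_cast this
  have hd : (k : ℝ) / n1 ≤ 2 * s := by
    have h5 : (k : ℝ) / s < n1 + 1 := by rw [hn1]; exact Nat.lt_floor_add_one _
    rw [div_lt_iff₀ hs0] at h5
    rw [div_le_iff₀ hn0]
    nlinarith
  have hl3 : 1 ≤ Real.log 3 := by
    rw [Real.le_log_iff_exp_le (by norm_num)]
    have := Real.exp_one_lt_d9
    linarith
  have e1 : Real.log (3 * k / s) = Real.log 3 + Real.log (k / s) := by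
    rw [mul_div_assoc, Real.log_mul (by norm_num) (by positivity)]
  have h6 : Real.log n1 ≤ Real.log (k / s) := Real.log_le_log hn0 hb
  have h7 : 0 ≤ Real.log (n1 : ℝ) := Real.log_nonneg har
  refine ⟨n1, ha, hc, hb, by rw [e1]; linarith, ?_⟩
  apply mul_le_mul hd (by rw [e1]; linarith) (by linarith) (by positivity)

/-- the theorem -/
theorem t_FIN (h1 : S_PSR) (h2 : S_ARD) (h3 : S_MER) : S_FIN := by
  classical
  obtain ⟨C', hC', h1⟩ := h1
  refine ⟨2 * C' + 1, by positivity, ?_⟩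
  intro k s B hk hs hsk
  have hkr : (1 : ℝ) ≤ k := by exact_mod_cast hk
  have hk0 : (0 : ℝ) < k := by linarith
  have hs0 : 0 < s := by linarith
  obtain ⟨n1, hn1a, hn1c, hn1b, hlog1, hcon⟩ := FIN_par hk hs hsk
  obtain ⟨Q1, hQ1⟩ := h3 1 k ((k : ℝ) ^ 2 * max B 0) (1 / (k : ℝ)) one_pos hk (by positivity)
  obtain ⟨Q2, hQ2⟩ := (Filter.tendsto_atTop.1 (Real.tendsto_log_atTop.comp tendsto_natCast_atTop_atTop)
    ((k : ℝ) * Real.log ((k : ℝ) + 1) + 1)).exists_forall_of_atTop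
  refine ⟨max Q1 (max Q2 1), ?_⟩
  intro Q hQ H hH hHB c
  have hQa : Q1 ≤ Q := (le_max_left _ _).trans hQ
  have hQb : Q2 ≤ Q := (le_max_left _ _).trans ((le_max_right _ _).trans hQ)
  have hQc : 1 ≤ Q := (le_max_right _ _).trans ((le_max_right _ _).trans hQ)
  have hlogQ : (k : ℝ) * Real.log ((k : ℝ) + 1) + 1 ≤ Real.log Q := hQ2 Q hQb
  have hlk : 0 ≤ Real.log ((k : ℝ) + 1) := Real.log_nonneg (by linarith)
  have hlkn : 0 ≤ (k : ℝ) * Real.log ((k : ℝ) + 1) := by positivity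
  have hlQ0 : 0 < Real.log Q := by linarith
  have hQr : (0 : ℝ) < Q := by exact_mod_cast hQc
  -- the enumeration of the sites
  obtain ⟨hs', hsd⟩ : ∃ hs' : Fin k → ℕ, hs' = fun i => ((H.equivFinOfCardEq hH).symm i : ℕ) := ⟨_, rfl⟩
  have hsH : ∀ i, hs' i ∈ H := fun i => by rw [hsd]; exact ((H.equivFinOfCardEq hH).symm i).2
  have hsinj : Function.Injective hs' := by
    intro a b hab
    rw [hsd] at hab
    exact (H.equivFinOfCardEq hH).symm.injective (Subtype.ext hab)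
  have hssurj : ∀ h ∈ H, ∃ a, hs' a = h := by
    intro h hh
    refine ⟨H.equivFinOfCardEq hH ⟨h, hh⟩, ?_⟩
    rw [hsd]
    simp
  obtain ⟨M, hM⟩ : ∃ M, M = Q.factorial := ⟨_, rfl⟩
  have hM0 : 0 < M := by rw [hM]; exact Nat.factorial_pos _
  have hMr : (0 : ℝ) < M := by exact_mod_cast hM0
  have hdM : ∀ d, 1 ≤ d → d ≤ Q → d ∣ M := fun d h1 h2 => by rw [hM]; exact Nat.dvd_factorial (by omega) h2
  have hdN : ∀ d ∈ Icc 1 Q, d ∣ M := fun d hd => by
    rw [mem_Icc] at hd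
    exact hdM d hd.1 hd.2
  -- the primes dividing a difference
  obtain ⟨D, hD⟩ : ∃ D, D = ∏ z ∈ (H ×ˢ H).filter (fun z => z.1 < z.2), (z.2 - z.1) := ⟨_, rfl⟩
  have hD0 : 0 < D := by
    rw [hD]
    refine prod_pos fun z hz => ?_
    rw [mem_filter] at hz
    omega
  have hlD : Real.log D ≤ (k : ℝ) ^ 2 * max B 0 * Real.log Q := by
    rw [hD]
    push_cast
    rw [Real.log_prod (by
      intro z hz
      rw [mem_filter] at hz
      have : 0 < z.2 - z.1 := by omega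
      exact_mod_cast this.ne')]
    have hmB : 0 ≤ max B 0 * Real.log Q := mul_nonneg (le_max_right _ _) hlQ0.le
    have h1 : ∀ z ∈ (H ×ˢ H).filter (fun z => z.1 < z.2),
        Real.log ((z.2 - z.1 : ℕ) : ℝ) ≤ max B 0 * Real.log Q := by
      intro z hz
      rw [mem_filter, mem_product] at hz
      have h2 := hHB z.2 hz.1.2
      have h5 : ((z.2 - z.1 : ℕ) : ℝ) ≤ (Q : ℝ) ^ B := by
        have : ((z.2 - z.1 : ℕ) : ℝ) ≤ z.2 := by exact_mod_cast Nat.sub_le _ _
        linarith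
      have h6 : Real.log ((z.2 - z.1 : ℕ) : ℝ) ≤ B * Real.log Q := by
        rw [← Real.log_rpow hQr]
        apply Real.log_le_log _ h5
        exact_mod_cast (by omega : 0 < z.2 - z.1)
      exact h6.trans (mul_le_mul_of_nonneg_right (le_max_left _ _) hlQ0.le)
    refine (sum_le_sum h1).trans ?_
    rw [sum_const, nsmul_eq_mul, mul_assoc]
    apply mul_le_mul_of_nonneg_right _ hmB
    have h2 : ((H ×ˢ H).filter (fun z => z.1 < z.2)).card ≤ k ^ 2 := by
      refine (card_filter_le _ _).trans ?_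
      rw [card_product, hH, sq]
    exact_mod_cast h2
  obtain ⟨Bd, hBd⟩ : ∃ Bd : Finset ℕ, Bd = ((Icc 1 Q).filter Nat.Prime).filter (fun p => p ∣ D) := ⟨_, rfl⟩
  have hBdp : ∀ p ∈ Bd, p.Prime ∧ p ∣ D := fun p hp => by
    rw [hBd, mem_filter, mem_filter] at hp
    exact ⟨hp.1.2, hp.2⟩
  have hmer := hQ1 Q hQa Bd (fun p hp => (hBdp p hp).1) ((FIN_lg hD0 hBdp).trans hlD)
  -- the good primes
  obtain ⟨P, hP⟩ : ∃ P : Finset ℕ, P = ((Icc 1 Q).filter Nat.Prime).filter (fun p => p ∉ Bd ∧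
    ((1 : ℕ) : ℝ) * Real.log Q < k * Real.log p ∧ FIN_blk k Q p < n1) := ⟨_, rfl⟩
  have hP' : ∀ p ∈ P, p.Prime ∧ 1 ≤ p ∧ p ≤ Q ∧ p ∉ Bd ∧ ((1 : ℕ) : ℝ) * Real.log Q < k * Real.log p ∧
      FIN_blk k Q p < n1 := by
    intro p hp
    rw [hP, mem_filter, mem_filter, mem_Icc] at hp
    exact ⟨hp.1.2, hp.1.1.1, hp.1.1.2, hp.2.1, hp.2.2.1, hp.2.2.2⟩
  have hPlog : ∀ p ∈ P, Real.log p ≤ Real.log Q := fun p hp => by
    have := hP' p hp
    exact Real.log_le_log (by exact_mod_cast this.2.1) (by exact_mod_cast this.2.2.1)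
  have hPspec : ∀ p ∈ P, _ := fun p hp => FIN_blk_spec (m := 1) (n := k) (Q := Q) (p := p) one_pos hlQ0
    (hP' p hp).2.2.2.2.1 (hPlog p hp)
  have hPY : ∀ p ∈ P, p ∈ PY Q (1 / s) := by
    intro p hp
    obtain ⟨a1, a2, a3, a4, a5, a6⟩ := hP' p hp
    obtain ⟨b1, b2, b3, b4⟩ := hPspec p hp
    have hp0 : (0 : ℝ) < p := by exact_mod_cast a2
    unfold PY
    rw [mem_filter, mem_Icc]
    refine ⟨⟨a2, a3⟩, a1, ?_⟩
    rw [← Real.log_le_log_iff hp0 (Real.rpow_pos_of_pos hQr _), Real.log_rpow hQr]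
    have h5 : (FIN_blk k Q p : ℝ) + 1 ≤ n1 := by exact_mod_cast a6
    have h6 : (k : ℝ) * Real.log p ≤ k * (1 / s * Real.log Q) := by
      calc (k : ℝ) * Real.log p ≤ ((FIN_blk k Q p : ℝ) + 1) * Real.log Q := b4
        _ ≤ (k / s) * Real.log Q := mul_le_mul_of_nonneg_right (h5.trans hn1b) hlQ0.le
        _ = k * (1 / s * Real.log Q) := by ring
    exact le_of_mul_le_mul_left h6 hk0
  obtain ⟨q, hq⟩ : ∃ q : Fin P.card → ℕ, q = P.orderEmbOfFin rfl := ⟨_, rfl⟩
  have hqmem : ∀ i, q i ∈ P := fun i => by rw [hq]; exact P.orderEmbOfFin_mem rfl i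
  have hqmono : StrictMono q := by rw [hq]; exact (P.orderEmbOfFin rfl).strictMono
  have hqsum : ∀ (g : ℕ → ℝ), ∑ i, g (q i) = ∑ p ∈ P, g p := by
    intro g
    have h1 : P = univ.image q := by
      rw [hq]
      exact (Finset.image_orderEmbOfFin_univ P rfl).symm
    conv_rhs => rw [h1]
    rw [sum_image (fun a _ b _ hab => hqmono.injective hab)]
  have hqk : ∀ i, k < q i := by
    intro i
    have h1 := (hP' _ (hqmem i)).2.2.2.2.1
    rw [Nat.cast_one, one_mul] at h1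
    have h3 : (k : ℝ) * Real.log ((k : ℝ) + 1) < k * Real.log (q i) := by linarith
    have h4 : Real.log ((k : ℝ) + 1) < Real.log (q i) := lt_of_mul_lt_mul_left h3 hk0.le
    have h5 : (0 : ℝ) < q i := by exact_mod_cast (hP' _ (hqmem i)).1.pos
    have h6 := (Real.log_lt_log_iff (by linarith) h5).1 h4
    exact_mod_cast (by linarith : (k : ℝ) < q i)
  have hqk' : ∀ i, (k : ℝ) < (q i : ℝ) := fun i => by exact_mod_cast hqk i
  -- the model
  have hmod := fun (f : St P.card k → ℝ) => h1 k 1 n1 P.card (fun i => (q i : ℝ)) (fun i => FIN_blk k Q (q i)) f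
    hk le_rfl hn1a (by rw [mul_one]; exact hn1c)
    (fun i i' hii => FIN_blk_mono hlQ0 (hP' _ (hqmem i)).1.pos (hqmono.monotone hii))
    (fun i => ⟨(hPspec _ (hqmem i)).1, (hP' _ (hqmem i)).2.2.2.2.2⟩) hqk' (fun j hj1 hj2 => by
      have hjk : j < k := by omega
      have e0 : (1 : ℝ) / ((k : ℝ) * ((1 : ℕ) : ℝ)) = 1 / (k : ℝ) := by rw [Nat.cast_one, mul_one]
      rw [e0]
      refine (hmer j hj1 hjk).trans (le_of_eq ?_)
      have h1 : ∑ i ∈ univ.filter (fun i => FIN_blk k Q (q i) = j), 1 / (q i : ℝ) =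
          ∑ p ∈ P, (if FIN_blk k Q p = j then 1 / (p : ℝ) else 0) := by
        rw [← hqsum, sum_filter]
      rw [h1, ← sum_filter]
      apply sum_congr _ (fun _ _ => rfl)
      ext p
      simp only [mem_filter]
      constructor
      · rintro ⟨⟨h2, h3⟩, h4, h5, h6⟩
        have hmj : (1 : ℝ) ≤ j := by exact_mod_cast hj1
        have hbj := FIN_blk_unique hlQ0 h5 h6
        refine ⟨?_, hbj⟩
        rw [hP, mem_filter, mem_filter]
        refine ⟨⟨h2, h3⟩, h4, ?_, by omega⟩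
        rw [Nat.cast_one]
        nlinarith
      · rintro ⟨h2, h3⟩
        have h4 := hP' p h2
        have h5 := hPspec p h2
        rw [h3] at h5
        exact ⟨⟨mem_Icc.2 ⟨h4.2.1, h4.2.2.1⟩, h4.1⟩, h4.2.2.2.1, h5.2.2.1, h5.2.2.2⟩)
  obtain ⟨f, hf1, hf2, hf3, hf4, hf5⟩ := h2 P.card k hs' q (fun i => FIN_blk k Q (q i)) (k * 1) Q M
    (fun d x => c d (x % d))
    hqmono.injective (fun i => ⟨(hP' _ (hqmem i)).1, hqk i⟩)
    (fun i x a a' h1 h2 => by
      have hpi := hP' _ (hqmem i)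
      have key : ∀ a b, a ∈ H → b ∈ H → q i ∣ x + a → q i ∣ x + b → ¬ a < b := by
        intro a b ha hb h3 h4 h5
        apply hpi.2.2.2.1
        rw [hBd, mem_filter, mem_filter, mem_Icc]
        refine ⟨⟨⟨hpi.2.1, hpi.2.2.1⟩, hpi.1⟩, ?_⟩
        have h6 : q i ∣ b - a := by
          have h7 := Nat.dvd_sub h4 h3
          have e : x + b - (x + a) = b - a := by omega
          rwa [e] at h7
        refine h6.trans ?_
        rw [hD]
        exact dvd_prod_of_mem (fun z : ℕ × ℕ => z.2 - z.1) (mem_filter.2 ⟨mem_product.2 ⟨ha, hb⟩, h5⟩ : (a, b) ∈ _)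
      have h3 := key _ _ (hsH a) (hsH a') h1 h2
      have h4 := key _ _ (hsH a') (hsH a) h2 h1
      apply hsinj
      omega) hM0 (fun i => hdM _ (hP' _ (hqmem i)).2.1 (hP' _ (hqmem i)).2.2.1)
    (fun d hd => ⟨fun x => by simp only [Nat.add_mod_right], hdN d hd⟩)
    (fun d hd => by
      rw [mem_Icc] at hd
      obtain ⟨T, hT⟩ : ∃ T : Finset (Fin P.card), T = univ.filter (fun i => q i ∣ d) := ⟨_, rfl⟩
      rw [← hT, mul_one]
      have h1 : ∑ i ∈ T, Real.log (q i) ≤ Real.log d := by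
        have h2 : ∑ i ∈ T, Real.log (q i) = ∑ p ∈ T.image q, Real.log p := by
          rw [sum_image (fun a _ b _ hab => hqmono.injective hab)]
        rw [h2]
        refine FIN_lg (by omega) ?_
        intro p hp
        rw [mem_image] at hp
        obtain ⟨i, hi, rfl⟩ := hp
        rw [hT, mem_filter] at hi
        exact ⟨(hP' _ (hqmem i)).1, hi.2⟩
      have h3 : Real.log d ≤ Real.log Q := Real.log_le_log (by exact_mod_cast hd.1) (by exact_mod_cast hd.2)
      have h4 : (∑ i ∈ T, (FIN_blk k Q (q i) : ℝ)) * Real.log Q ≤ k * Real.log Q := by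
        rw [sum_mul]
        refine (sum_le_sum fun i _ => (hPspec _ (hqmem i)).2.2.1.le).trans ?_
        rw [← mul_sum]
        exact mul_le_mul_of_nonneg_left (h1.trans h3) hk0.le
      have h5 := le_of_mul_le_mul_right h4 hlQ0
      exact_mod_cast h5)
  have hmu := FIN_muP_nonneg (N := P.card) (k := k) (q := fun i => (q i : ℝ)) hqk'
  have hmean : (∑ x ∈ range M, ∑ d ∈ Icc 1 Q, c d (x % d)) / (M : ℝ) = mn Q c := by
    rw [hM]
    exact FIN_mean Q c
  rw [hmean] at hf4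
  have hb := hmod f hf1
  have e2 : C' * (((k : ℝ) * ((1 : ℕ) : ℝ)) / n1) * (1 + Real.log ((n1 : ℝ) / ((1 : ℕ) : ℝ))) =
      C' * ((k : ℝ) / n1 * (1 + Real.log n1)) := by
    rw [Nat.cast_one, mul_one, div_one]
    ring
  rw [e2] at hb
  -- rough numbers are alive
  have hrough : ∀ x, rough Q s H x ≤ (univ.filter (fun a : Fin k => ∀ i, ¬ q i ∣ x + hs' a)).card := by
    intro x
    unfold rough
    refine le_trans (card_le_card ?_)
      (card_image_le (s := univ.filter (fun a : Fin k => ∀ i, ¬ q i ∣ x + hs' a)) (f := hs'))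
    intro h hh
    rw [mem_filter] at hh
    obtain ⟨a, ha⟩ := hssurj h hh.1
    rw [mem_image]
    refine ⟨a, ?_, ha⟩
    rw [mem_filter]
    refine ⟨mem_univ _, fun i => ?_⟩
    rw [ha]
    exact hh.2 _ (hPY _ (hqmem i))
  have hL : 0 < s * Real.log (3 * k / s) := by positivity
  refine ⟨?_, ?_⟩
  · intro hw
    have hf0 : ∀ γ, 0 ≤ f γ := fun γ => hf2 γ 0 (fun x _ => hw x)
    have hmn0 : 0 ≤ mn Q c := by
      rw [← hf4]
      exact sum_nonneg fun γ _ => mul_nonneg (hmu γ) (hf0 γ)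
    have hle : (∑ n ∈ range Q.factorial, wt Q c n * (rough Q s H n : ℝ)) / (Q.factorial : ℝ) ≤
        ∑ γ, muP (fun i => (q i : ℝ)) γ * f γ * ((alive γ P.card).card : ℝ) := by
      rw [hf5, ← hM]
      apply div_le_div_of_nonneg_right _ hMr.le
      apply sum_le_sum
      intro x _
      apply mul_le_mul_of_nonneg_left _ (hw x)
      exact_mod_cast hrough x
    refine hle.trans ?_
    rcases hmn0.eq_or_lt with h0 | h0
    · -- everything vanishes
      rw [← h0, mul_zero]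
      have hz : ∀ γ ∈ (univ : Finset (St P.card k)), muP (fun i => (q i : ℝ)) γ * f γ = 0 := by
        rw [← sum_eq_zero_iff_of_nonneg (fun γ _ => mul_nonneg (hmu γ) (hf0 γ)), hf4, ← h0]
      apply le_of_eq
      apply sum_eq_zero
      intro γ hγ
      rw [hz γ hγ, zero_mul]
    · have h5 := hb (by rw [hf4]; exact h0)
      have e3 : ∀ γ, max (f γ) 0 = f γ := fun γ => max_eq_left (hf0 γ)
      simp only [e3] at h5
      rw [hf4] at h5
      refine h5.trans ?_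
      apply mul_le_mul_of_nonneg_right _ h0.le
      have h6 := mul_le_mul_of_nonneg_left hcon hC'.le
      nlinarith
  · intro M' hM' hw
    by_contra hpos
    push Not at hpos
    have h5 := hb (by rw [hf4]; exact hpos)
    have hfneg : ∀ γ, ((alive γ P.card).card : ℝ) < M' → f γ ≤ 0 := by
      intro γ hγ
      refine hf3 γ 0 (fun x hx => hw x (lt_of_le_of_lt ?_ hγ))
      have h6 : (univ.filter (fun a : Fin k => ∀ i, ¬ q i ∣ x + hs' a)) = alive γ P.card := by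
        unfold alive
        ext a
        simp only [mem_filter, mem_univ, true_and]
        constructor
        · intro h i _ hi
          exact h i ((hx i a).1 hi)
        · intro h i hi
          exact h i i.2 ((hx i a).2 hi)
      have h7 := hrough x
      rw [h6] at h7
      exact_mod_cast h7
    obtain ⟨S, hS⟩ : ∃ S, S = ∑ γ, muP (fun i => (q i : ℝ)) γ * max (f γ) 0 := ⟨_, rfl⟩
    have hSpos : 0 < S := by
      refine lt_of_lt_of_le hpos ?_
      rw [← hf4, hS]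
      exact sum_le_sum fun γ _ => mul_le_mul_of_nonneg_left (le_max_left _ _) (hmu γ)
    have h6 : M' * S ≤ ∑ γ, muP (fun i => (q i : ℝ)) γ * max (f γ) 0 * ((alive γ P.card).card : ℝ) := by
      rw [hS, mul_sum]
      apply sum_le_sum
      intro γ _
      have h7 : 0 ≤ muP (fun i => (q i : ℝ)) γ * max (f γ) 0 := mul_nonneg (hmu γ) (le_max_right _ _)
      rcases lt_or_ge ((alive γ P.card).card : ℝ) M' with hlt | hge
      · rw [max_eq_right (hfneg γ hlt)]
        simp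
      · rw [mul_comm]
        exact mul_le_mul_of_nonneg_left hge h7
    rw [← hS] at h5
    have h7 : M' ≤ C' * ((k : ℝ) / n1 * (1 + Real.log n1)) := le_of_mul_le_mul_right (h6.trans h5) hSpos
    have h8 := mul_le_mul_of_nonneg_left hcon hC'.le
    nlinarith

end Pool.Agent.N422.CD
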