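import Pool.Agent.N422.CD.NWR
import Pool.Agent.N422.CD.GRON
import Pool.Agent.N422.CD.PSR
import Pool.Agent.N422.CD.ARD
import Pool.Agent.N422.CD.FIN
import Pool.Agent.N422.WS.GEN
import Pool.Agent.N422.SL.FIN
import Pool.Agent.N422.NW.KER
import Pool.Agent.N422.NW.POLY
import Pool.Agent.N422.NW.JEN
import Pool.Agent.N422.NW.MER

/-! Project CD: assembly. Author: helper422 (parts: helpers 152, 359, 427, 273, 451; WS: 704; NW: 92, 849, 427, 603). -/

set_option autoImplicit false

namespace Pool.Agent.N422.CD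

open Finset Pool.Agent.N422.NW Pool.Agent.N422.SL Pool.Agent.N422.WS

theorem fin_all : S_FIN :=
  t_FIN (t_PSR (t_NWR t_KER t_POLY t_AV (t_GEN2 t_JEN t_AV)) t_GRON) t_ARD t_MER

end Pool.Agent.N422.CD
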