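import Pool.Agent.N422.CD.Stm
import Pool.Agent.N422.NW.CORE

/-! Project CD (helper422), part NWR (helper152): the main inequality for real functions -/

set_option autoImplicit false

open Finset

namespace Pool.Agent.N422.CD

open Pool.Agent.N422.NW Pool.Agent.N422.SL Pool.Agent.N422.WS

theorem NWR_prod_cast {N k : ℕ} (q r : Fin N → ℝ) (γ γ' : St N k) :
    ∏ i, ker1 (fun i => (q i : ℂ)) (fun i => (r i : ℂ)) γ i (γ' i) =
      ((∏ i, ker1 q r γ i (γ' i) : ℝ) : ℂ) := by
  rw [Complex.ofReal_prod]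
  apply Finset.prod_congr rfl
  intro i _
  unfold ker1
  split_ifs <;> push_cast <;> ring

theorem NWR_ker_ind {N k : ℕ} (q r : Fin N → ℝ) (γ γ' : St N k) :
    ker q r (fun x => if x = γ' then 1 else 0) γ = ∏ i, ker1 q r γ i (γ' i) := by
  unfold ker
  simp only []
  rw [Finset.sum_eq_single γ']
  · simp
  · intro b _ hb
    simp [hb]
  · intro h
    exact absurd (Finset.mem_univ _) h

theorem NWR_prod_zero {N k : ℕ} (q : Fin N → ℂ) (γ γ' : St N k) :
    ∏ i, ker1 q (fun _ => 0) γ i (γ' i) = if γ' = γ then 1 else 0 := by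
  by_cases h : γ' = γ
  · rw [if_pos h, h]
    apply Finset.prod_eq_one
    intro i _
    unfold ker1
    simp
  · rw [if_neg h]
    have : ∃ i, γ' i ≠ γ i := by
      by_contra hcon
      push Not at hcon
      exact h (funext hcon)
    obtain ⟨i, hi⟩ := this
    apply Finset.prod_eq_zero (Finset.mem_univ i)
    unfold ker1
    simp [hi]

theorem t_NWR (h1 : S_KER) (h2 : S_POLY) (h3 : S_AV) (h4 : S_GEN2) : S_NWR := by
  intro N k n q ν f hq hLev t ht R c1 r0 hR hc1 hr0 hlog hRr hpos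
  set s : ℝ := Real.exp (-t) with hs
  have hs0 : 0 < s := Real.exp_pos _
  -- the rates
  set a : Fin N → ℂ → ℝ := fun i z => Real.cosh (ν i * t) - (z ^ ν i).re with ha
  set ρ : ℂ → Fin N → ℝ := fun z i => R i * a i z with hρ
  have hpsi : ∀ w : ℂ, ‖w‖ = 1 → ‖psi s w‖ = 1 := (h3 0 t ht).1
  have hcont : Continuous (fun θ : ℝ => psi s (circleMap 0 1 θ)) := (h3 0 t ht).2.1
  have hρb : ∀ z : ℂ, ‖z‖ = 1 → ∀ i, 0 ≤ ρ z i ∧ ρ z i ≤ r0 := by
    intro z hz i
    have g1 : |(z ^ ν i).re| ≤ 1 := by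
      refine (Complex.abs_re_le_norm _).trans ?_
      rw [norm_pow, hz, one_pow]
    have g2 := Real.one_le_cosh (ν i * t)
    rw [abs_le] at g1
    have g3 : 0 ≤ a i z := by simp only [ha]; linarith [g1.2]
    have g4 : a i z ≤ Real.cosh (ν i * t) + 1 := by simp only [ha]; linarith [g1.1]
    exact ⟨mul_nonneg (hR i) g3, (mul_le_mul_of_nonneg_left g4 (hR i)).trans (hRr i)⟩
  have hρ1 : ∀ z : ℂ, ‖z‖ = 1 → ∀ i, 0 ≤ ρ z i ∧ ρ z i < 1 := fun z hz i =>
    ⟨(hρb z hz i).1, lt_of_le_of_lt (hρb z hz i).2 hr0⟩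
  -- the complex rates
  have hrate : ∀ z : ℂ, ‖z‖ = 1 → (fun i : Fin N => (R i : ℂ) * ((Real.cosh (ν i * t) : ℝ) -
      (z ^ ν i + (z⁻¹) ^ ν i) / 2)) = fun i => ((ρ z i : ℝ) : ℂ) := by
    intro z hz
    funext i
    have hinv : z⁻¹ = (starRingEnd ℂ) z := by
      rw [Complex.inv_def, Complex.normSq_eq_norm_sq, hz]
      simp
    have e3 : (z ^ ν i + (z⁻¹) ^ ν i) / 2 = (((z ^ ν i).re : ℝ) : ℂ) := by
      rw [hinv, ← map_pow, Complex.add_conj]
      push_cast
      ring
    rw [e3]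
    simp only [hρ, ha]
    push_cast
    ring
  -- the lower bound for the density
  set α : St N k → Fin N → ℝ := fun γ i => ((alive γ i).card : ℝ) * R i / q i -
    (if Hit (alive γ i) (γ i) then R i else 0) with hα
  set β : St N k → Fin N → ℝ := fun γ i =>
    -(if Hit (alive γ i) (γ i) then c1 * R i ^ 2 else 0) with hβ
  have hLB : ∀ γ w, ‖w‖ = 1 → ∑ i, (α γ i * a i (psi s w) + β γ i * a i (psi s w) ^ 2) ≤
      Real.log (phi q (ρ (psi s w)) γ) := by
    intro γ w hw
    have hz := hpsi w hw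
    refine le_trans (le_of_eq ?_) (CORE_log_phi q (ρ (psi s w)) hq (hρ1 _ hz) c1
      (fun i => hlog _ (hρb _ hz i).1 (hρb _ hz i).2) γ)
    apply Finset.sum_congr rfl
    intro i _
    simp only [hα, hβ, hρ]
    split_ifs <;> ring
  -- integrability
  have hac : ∀ i, Continuous (fun θ : ℝ => a i (psi s (circleMap 0 1 θ))) := by
    intro i
    exact continuous_const.sub (Complex.continuous_re.comp (hcont.pow _))
  have hai : ∀ i, CircleIntegrable (fun w => a i (psi s w)) 0 1 := fun i =>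
    Continuous.intervalIntegrable (hac i) _ _
  have hai2 : ∀ i, CircleIntegrable (fun w => a i (psi s w) ^ 2) 0 1 := fun i =>
    Continuous.intervalIntegrable ((hac i).pow 2) _ _
  have hca : ∀ i, Real.circleAverage (fun w => a i (psi s w)) 0 1 = Real.sinh (ν i * t) :=
    fun i => (h3 (ν i) t ht).2.2.1
  have hca2 : ∀ i, Real.circleAverage (fun w => a i (psi s w) ^ 2) 0 1 =
      Real.sinh (ν i * t) * Real.cosh (ν i * t) := fun i => (h3 (ν i) t ht).2.2.2
  have hV : ∀ γ, CircleIntegrable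
      (fun w => ∑ i, (α γ i * a i (psi s w) + β γ i * a i (psi s w) ^ 2)) 0 1 ∧
      Real.circleAverage (fun w => ∑ i, (α γ i * a i (psi s w) + β γ i * a i (psi s w) ^ 2)) 0 1 =
      ∑ i, R i * Real.sinh (ν i * t) * (((alive γ i).card : ℝ) / q i -
        (1 + c1 * R i * Real.cosh (ν i * t)) * (if Hit (alive γ i) (γ i) then 1 else 0)) := by
    intro γ
    have hi : ∀ i ∈ (univ : Finset (Fin N)),
        CircleIntegrable (fun w => α γ i * a i (psi s w) + β γ i * a i (psi s w) ^ 2) 0 1 := fun i _ =>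
      (CORE_ca_lin (fun w => a i (psi s w)) (hai i) (hai2 i) (α γ i) (β γ i)).1
    refine ⟨?_, ?_⟩
    · have := CircleIntegrable.sum univ hi
      convert this using 1
      funext w
      rw [Finset.sum_apply]
    rw [Real.circleAverage_fun_sum hi]
    apply Finset.sum_congr rfl
    intro i _
    rw [(CORE_ca_lin (fun w => a i (psi s w)) (hai i) (hai2 i) (α γ i) (β γ i)).2, hca, hca2]
    simp only [hα, hβ]
    split_ifs <;> ring
  -- the general inequality
  refine h4 (St N k) n (muP q) f t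
    (fun z γ γ' => ∏ i, ker1 (fun i => (q i : ℂ)) (fun i => (R i : ℂ) * ((Real.cosh (ν i * t) : ℝ) -
      (z ^ ν i + (z⁻¹) ^ ν i) / 2)) γ i (γ' i))
    (fun z γ => phi q (ρ z) γ)
    (fun γ => ∑ i, R i * Real.sinh (ν i * t) * (((alive γ i).card : ℝ) / q i -
        (1 + c1 * R i * Real.cosh (ν i * t)) * (if Hit (alive γ i) (γ i) then 1 else 0)))
    (CORE_mu_nonneg q hq) ht ?_ ?_ ?_ ?_ hpos
  · -- the point `s`
    intro γ γ'
    have h0 : (fun i : Fin N => (R i : ℂ) * ((Real.cosh (ν i * t) : ℝ) -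
        ((s : ℂ) ^ ν i + ((s : ℂ)⁻¹) ^ ν i) / 2)) = fun _ => 0 := by
      funext i
      have e1 : s ^ ν i = Real.exp (-(ν i * t)) := by
        rw [hs, ← Real.exp_nat_mul]
        congr 1; ring
      have e2 : (s⁻¹) ^ ν i = Real.exp (ν i * t) := by
        rw [hs, ← Real.exp_neg, ← Real.exp_nat_mul]
        congr 1; ring
      have e3 : ((s : ℂ) ^ ν i + ((s : ℂ)⁻¹) ^ ν i) / 2 = ((Real.cosh (ν i * t) : ℝ) : ℂ) := by
        rw [Real.cosh_eq, ← e1, ← e2]
        push_cast
        ring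
      rw [e3]; ring
    show ∏ i, ker1 (fun i => (q i : ℂ)) (fun i : Fin N => (R i : ℂ) * ((Real.cosh (ν i * t) : ℝ) -
        ((s : ℂ) ^ ν i + ((s : ℂ)⁻¹) ^ ν i) / 2)) γ i (γ' i) = _
    rw [h0]
    exact NWR_prod_zero _ _ _
  · -- polynomials
    intro γ
    obtain ⟨P, -, hP⟩ := h2 N k n q ν f hLev (fun i => Real.cosh (ν i * t)) R γ
    exact ⟨P, hP⟩
  · -- the adjoint
    intro z hz
    refine ⟨fun γ => CORE_phi_pos q (ρ z) hq (hρ1 z hz) γ, fun γ' => ?_⟩
    have g1 := h1 N k q (ρ z) hq (fun i => ⟨(hρ1 z hz i).1, (hρ1 z hz i).2.le⟩)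
      (fun x => if x = γ' then 1 else 0)
    have g2 : ∑ γ, muP q γ * (if γ = γ' then (1 : ℝ) else 0) = muP q γ' := by
      rw [Finset.sum_eq_single γ']
      · rw [if_pos rfl, mul_one]
      · intro b _ hb
        rw [if_neg hb, mul_zero]
      · intro h
        exact absurd (Finset.mem_univ _) h
    rw [g2] at g1
    rw [← g1]
    apply le_of_eq
    apply Finset.sum_congr rfl
    intro γ _
    rw [NWR_ker_ind]
    congr 1
    show ‖∏ i, ker1 (fun i => (q i : ℂ)) (fun i : Fin N => (R i : ℂ) * ((Real.cosh (ν i * t) : ℝ) -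
        (z ^ ν i + (z⁻¹) ^ ν i) / 2)) γ i (γ' i)‖ = _
    rw [hrate z hz, NWR_prod_cast, Complex.norm_real, Real.norm_of_nonneg]
    exact Finset.prod_nonneg fun i _ => CORE_ker1_nonneg q (ρ z) hq (hρ1 z hz) γ i _
  · -- the logarithm of the density
    intro γ
    have hphic : Continuous (fun θ : ℝ => phi q (ρ (psi s (circleMap 0 1 θ))) γ) := by
      unfold phi
      apply continuous_finsetProd
      intro i _
      have hρc : Continuous (fun θ : ℝ => ρ (psi s (circleMap 0 1 θ)) i) := continuous_const.mul (hac i)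
      apply Continuous.div
      · split_ifs
        · exact continuous_const.sub hρc
        · exact continuous_const
      · exact continuous_const.sub ((continuous_const.mul hρc).div_const _)
      · intro θ
        have hw : ‖circleMap 0 1 θ‖ = 1 := by simp
        exact (CORE_coef q _ hq (hρ1 _ (hpsi _ hw)) γ i).ne'
    have hint : CircleIntegrable (fun w => Real.log (phi q (ρ (psi s w)) γ)) 0 1 := by
      apply Continuous.intervalIntegrable
      apply Continuous.log hphic
      intro θ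
      have hw : ‖circleMap 0 1 θ‖ = 1 := by simp
      exact (CORE_phi_pos q _ hq (hρ1 _ (hpsi _ hw)) γ).ne'
    refine ⟨hint, ?_⟩
    show ∑ i, R i * Real.sinh (ν i * t) * (((alive γ i).card : ℝ) / q i -
        (1 + c1 * R i * Real.cosh (ν i * t)) * (if Hit (alive γ i) (γ i) then 1 else 0)) ≤ _
    rw [← (hV γ).2]
    apply Real.circleAverage_mono (hV γ).1 hint
    intro w hw
    apply hLB γ w
    rw [mem_sphere_zero_iff_norm] at hw
    rw [hw]; simp

end Pool.Agent.N422.CD
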