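import Pool.Agent.N422.WS.Stm

/-! Project CD (helper422): limits of all sieves which detect `m` almost primes among `n + h`, `h ∈ H`: definitions and
statements of the self-contained pieces. -/

set_option autoImplicit false

open Finset

namespace Pool.Agent.N422.CD

open Pool.Agent.N422.NW Pool.Agent.N422.SL Pool.Agent.N422.WS

/-- the main inequality for real functions (CD/NWR) -/
def S_NWR : Prop := ∀ (N k n : ℕ) (q : Fin N → ℝ) (ν : Fin N → ℕ) (f : St N k → ℝ), (∀ i, (k : ℝ) < q i) →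
  Lev ν n f → ∀ t : ℝ, 0 < t → ∀ (R : Fin N → ℝ) (c1 r0 : ℝ), (∀ i, 0 ≤ R i) → 0 ≤ c1 → r0 < 1 →
  (∀ r : ℝ, 0 ≤ r → r ≤ r0 → -Real.log (1 - r) ≤ r + c1 * r ^ 2) →
  (∀ i, R i * (Real.cosh (ν i * t) + 1) ≤ r0) → 0 < ∑ γ, muP q γ * max (f γ) 0 →
  ∑ γ, muP q γ * max (f γ) 0 * ∑ i, R i * Real.sinh (ν i * t) * (((alive γ i).card : ℝ) / q i -
      (1 + c1 * R i * Real.cosh (ν i * t)) * (if Hit (alive γ i) (γ i) then 1 else 0)) ≤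
    (n * t + Real.log ((∑ γ, muP q γ * |f γ|) / ∑ γ, muP q γ * max (f γ) 0)) * ∑ γ, muP q γ * max (f γ) 0

/-- the numerical sequence (CD/GRON) -/
def S_GRON : Prop := ∃ C : ℝ, 0 < C ∧ ∀ (m n1 n k : ℕ) (η : ℝ) (A h : ℕ → ℝ) (E : ℝ), 1 ≤ m → m ≤ n1 → n1 ≤ n →
  n = k * m → 0 ≤ η → η * n ≤ 1 → 0 ≤ E → (∀ j, 0 ≤ A j) → (∀ j, m ≤ j → j < n1 → A (j + 1) ≤ A j) → A m ≤ k * E →
  (∀ j, m ≤ j → j < n1 → Real.log (((j : ℝ) + 1) / j) - η ≤ h j) →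
  (∀ J, m ≤ J → J ≤ n1 → ∑ j ∈ Ico m J, (1 / (8 * (1 + Real.log ((n1 : ℝ) / m)))) * Real.sinh (j / n) *
    (h j * A (j + 1) - (1 + 2 * (1 / (8 * (1 + Real.log ((n1 : ℝ) / m))))) * (A j - A (j + 1))) ≤ 2 * E) →
  A n1 ≤ C * ((n : ℝ) / n1) * (1 + Real.log ((n1 : ℝ) / m)) * E

/-- the limit in the model (CD/PSR) -/
def S_PSR : Prop := ∃ C : ℝ, 0 < C ∧ ∀ (k m n1 N : ℕ) (q : Fin N → ℝ) (β : Fin N → ℕ) (f : St N k → ℝ), 1 ≤ k →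
  1 ≤ m → m ≤ n1 → n1 ≤ k * m → Monotone β → (∀ i, m ≤ β i ∧ β i < n1) → (∀ i, (k : ℝ) < q i) →
  (∀ j, m ≤ j → j < n1 → Real.log (((j : ℝ) + 1) / j) - 1 / (k * m : ℝ) ≤
    ∑ i ∈ univ.filter (fun i => β i = j), 1 / q i) → Lev β (k * m) f → 0 < ∑ γ, muP q γ * f γ →
  ∑ γ, muP q γ * max (f γ) 0 * ((alive γ N).card : ℝ) ≤
    C * ((k * m : ℝ) / n1) * (1 + Real.log ((n1 : ℝ) / m)) * ∑ γ, muP q γ * max (f γ) 0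

/-- from the model to periodic functions (CD/AR) -/
def S_ARD : Prop := ∀ (N k : ℕ) (hs : Fin k → ℕ) (q ν : Fin N → ℕ) (n Q M : ℕ) (F : ℕ → ℕ → ℝ),
  Function.Injective q → (∀ i, (q i).Prime ∧ k < q i) →
  (∀ (i : Fin N) (x : ℕ) (a a' : Fin k), q i ∣ x + hs a → q i ∣ x + hs a' → a = a') →
  0 < M → (∀ i, q i ∣ M) → (∀ d ∈ Icc 1 Q, Function.Periodic (F d) d ∧ d ∣ M) →
  (∀ d ∈ Icc 1 Q, ∑ i ∈ univ.filter (fun i => q i ∣ d), ν i ≤ n) →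
  ∃ f : St N k → ℝ, Lev ν n f ∧
    (∀ (γ : St N k) (b : ℝ), (∀ x : ℕ, (∀ i a, γ i = some a ↔ q i ∣ x + hs a) → b ≤ ∑ d ∈ Icc 1 Q, F d x) → b ≤ f γ) ∧
    (∀ (γ : St N k) (b : ℝ), (∀ x : ℕ, (∀ i a, γ i = some a ↔ q i ∣ x + hs a) → ∑ d ∈ Icc 1 Q, F d x ≤ b) → f γ ≤ b) ∧
    ∑ γ, muP (fun i => (q i : ℝ)) γ * f γ = (∑ x ∈ range M, ∑ d ∈ Icc 1 Q, F d x) / M ∧
    ∑ γ, muP (fun i => (q i : ℝ)) γ * f γ * ((alive γ N).card : ℝ) =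
      (∑ x ∈ range M, (∑ d ∈ Icc 1 Q, F d x) * ((univ.filter (fun a : Fin k => ∀ i, ¬ q i ∣ x + hs a)).card : ℝ)) / M

/-- the number of the `h ∈ H` for which `n + h` has no prime factor `p ≤ Q^(1/s)` -/
noncomputable def rough (Q : ℕ) (s : ℝ) (H : Finset ℕ) (n : ℕ) : ℕ :=
  (H.filter (fun h => ∀ p ∈ SL.PY Q (1 / s), ¬ p ∣ n + h)).card

/-- the theorem (CD/FIN) -/
def S_FIN : Prop := ∃ C : ℝ, 0 < C ∧ ∀ (k : ℕ) (s B : ℝ), 1 ≤ k → 1 ≤ s → s ≤ k → ∃ Q0 : ℕ, ∀ Q : ℕ, Q0 ≤ Q →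
  ∀ H : Finset ℕ, H.card = k → (∀ h ∈ H, (h : ℝ) ≤ (Q : ℝ) ^ B) → ∀ c : ℕ → ℕ → ℝ,
  ((∀ n, 0 ≤ wt Q c n) → (∑ n ∈ range Q.factorial, wt Q c n * (rough Q s H n : ℝ)) / (Q.factorial : ℝ) ≤
    C * s * Real.log (3 * k / s) * mn Q c) ∧
  ∀ M : ℝ, C * s * Real.log (3 * k / s) ≤ M → (∀ n, (rough Q s H n : ℝ) < M → wt Q c n ≤ 0) → mn Q c ≤ 0

end Pool.Agent.N422.CD
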